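import Mathlib

namespace Pool.Agent.Results.MP_9ed304_an.Both
open Complex Set Filter Topology

noncomputable def c (n : ℕ) (a : ℂ) : ℂ :=
  (‖a‖ ^ (1 / (2 * n) : ℝ) : ℝ) * exp (I * (arg a / (2 * n)))

noncomputable def r (n : ℕ) (a z : ℂ) : ℂ := z ^ n + a / z ^ n + (c n a - 2 * a ^ (1 / 2 : ℂ))

noncomputable def v (n : ℕ) (a : ℂ) : ℂ := c n a - 4 * a ^ (1 / 2 : ℂ)

def M (n : ℕ) : Set ℂ :=
  {a | a ≠ 0 ∧ (∀ k, (r n a)^[k] (v n a) ≠ 0) ∧ ∃ R, ∀ k, ‖(r n a)^[k] (v n a)‖ ≤ R}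

def S (n : ℕ) : Set ℂ := {a | ∃ θ ∈ Icc 0 (2 * Real.pi), a = (c n a + exp (θ * I)) ^ 2 / 16}

def Sinf : Set ℂ := {a | ∃ θ ∈ Icc 0 (2 * Real.pi), a = (1 + exp (θ * I)) ^ 2 / 16}

theorem c_eq (n : ℕ) {a : ℂ} (h : a ≠ 0) : c n a = exp (log a / (2 * n)) := by
  rw [c, Real.rpow_def_of_pos (norm_pos_iff.2 h), ofReal_exp, ← exp_add, log]
  congr 1
  push_cast
  ring

theorem unit {u : ℂ} (h : ‖u‖ = 1) : ∃ θ ∈ Icc 0 (2 * Real.pi), exp (θ * I) = u := by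
  refine ⟨arg (-u) + Real.pi, ⟨by linarith [neg_pi_lt_arg (-u)], by linarith [arg_le_pi (-u)]⟩, ?_⟩
  have := norm_mul_exp_arg_mul_I (-u)
  rw [norm_neg, h, ofReal_one, one_mul] at this
  rw [ofReal_add, add_mul, exp_add, this, exp_pi_mul_I]
  ring

theorem esc {f : ℂ → ℂ} {ρ R : ℝ} (h0 : 0 < ρ) (h : ∀ z, ρ ≤ ‖z‖ → 2 * ‖z‖ ≤ ‖f z‖) {z : ℂ}
    (hz : ρ ≤ ‖z‖) (hR : ∀ k, ‖f^[k] z‖ ≤ R) : False := by
  have : ∀ k : ℕ, 2 ^ k * ρ ≤ ‖f^[k] z‖ := fun k => by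
    induction k with
    | zero => simpa using hz
    | succ k ih =>
      rw [Function.iterate_succ_apply', pow_succ]
      have := h _ ((le_mul_of_one_le_left h0.le (one_le_pow₀ one_le_two)).trans ih)
      linarith
  obtain ⟨k, hk⟩ := pow_unbounded_of_one_lt (R / ρ) (one_lt_two (α := ℝ))
  rw [div_lt_iff₀ h0] at hk
  linarith [this k, hR k]

theorem close {e δ : ℝ} (he : 0 < e) (hδ : 0 < δ) :
    ∀ᶠ n : ℕ in atTop, ∀ a : ℂ, e ≤ ‖a‖ → ‖a‖ ≤ 1 → ‖c n a - 1‖ ≤ δ := by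
  have : Tendsto (fun n : ℕ => (-Real.log e + Real.pi) / (2 * n)) atTop (𝓝 0) :=
    tendsto_const_nhds.div_atTop (tendsto_natCast_atTop_atTop.const_mul_atTop two_pos)
  filter_upwards [this.eventually_le_const (lt_min one_pos (half_pos hδ))] with n hn a h1 h2
  have h0 := he.trans_le h1
  have : ‖log a / (2 * n)‖ ≤ min 1 (δ / 2) := by
    refine le_trans ?_ hn
    rw [norm_div, norm_mul, Complex.norm_two, norm_natCast]
    refine div_le_div_of_nonneg_right ((norm_le_abs_re_add_abs_im _).trans ?_) (by positivity)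
    rw [log_re, log_im, abs_of_nonpos (Real.log_nonpos h0.le h2)]
    linarith [Real.log_le_log he h1, abs_arg_le_pi a]
  rw [c_eq n (norm_pos_iff.1 h0)]
  linarith [norm_exp_sub_one_le (this.trans (min_le_left _ _)), this.trans (min_le_right _ _)]

theorem sq (a : ℂ) : (a ^ (1 / 2 : ℂ)) ^ 2 = a := by
  rw [one_div]
  exact_mod_cast cpow_nat_inv_pow a two_ne_zero

theorem rl (n : ℕ) (a z : ℂ) : ‖z‖ ^ n ≤ ‖r n a z‖ + ‖a‖ / ‖z‖ ^ n + ‖c n a‖ + 2 * ‖a ^ (1 / 2 : ℂ)‖ ∧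
    ‖a‖ / ‖z‖ ^ n ≤ ‖r n a z‖ + ‖z‖ ^ n + ‖c n a‖ + 2 * ‖a ^ (1 / 2 : ℂ)‖ := by
  have h1 := norm_sub_le (c n a) (2 * a ^ (1 / 2 : ℂ))
  rw [norm_mul, Complex.norm_two] at h1
  have h2 := norm_sub_le (r n a z) (c n a - 2 * a ^ (1 / 2 : ℂ))
  rw [r, add_sub_cancel_right, ← r] at h2
  have h3 := norm_sub_le (z ^ n + a / z ^ n) (z ^ n)
  have h4 := norm_sub_le (z ^ n + a / z ^ n) (a / z ^ n)
  rw [add_sub_cancel_left, norm_div, norm_pow] at h3
  rw [add_sub_cancel_right, norm_div, norm_pow] at h4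
  constructor <;> linarith

theorem ann {e δ : ℝ} (he : 0 < e) (hδ : 0 < δ) (h1 : δ < 1) :
    ∀ᶠ n : ℕ in atTop, ∀ a ∈ M n, e ≤ ‖a‖ → ‖a‖ ≤ 1 ∧ |‖v n a‖ - 1| ≤ δ := by
  filter_upwards [eventually_ge_atTop 3, (tendsto_pow_atTop_atTop_of_one_lt
    (lt_add_of_pos_right 1 hδ)).eventually_ge_atTop 12, (tendsto_pow_atTop_nhds_zero_of_lt_one
    (sub_pos.2 h1).le (sub_lt_self 1 hδ)).eventually_le_const (by positivity : 0 < e / 6)]
    with n n3 n1 n2 a ⟨a0, hv, R, hR⟩ ha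
  set s := ‖a ^ (1 / 2 : ℂ)‖ with hs
  have s2 : s ^ 2 = ‖a‖ := by rw [hs, ← norm_pow, sq]
  have s0 : 0 ≤ s := norm_nonneg _
  have cn : ‖c n a‖ ^ n = s := by
    have : (n : ℂ) ≠ 0 := by exact_mod_cast (by omega : n ≠ 0)
    rw [hs, ← norm_pow, c_eq n a0, ← exp_nat_mul, cpow_def_of_ne_zero a0]
    congr 2
    field_simp
  obtain ⟨m, rfl⟩ : ∃ m, n = m + 3 := ⟨n - 3, by omega⟩
  have a1 : ‖a‖ ≤ 1 := by
    by_contra H
    have s1 : 1 ≤ s := by nlinarith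
    have c1 : ‖c (m + 3) a‖ ≤ s := by
      by_contra H
      linarith [le_self_pow₀ (s1.trans (not_le.1 H).le) (by omega : m + 3 ≠ 0)]
    refine esc (ρ := 3 * s) (by linarith) (fun z hz => ?_) ?_ hR
    · have z1 : 1 ≤ ‖z‖ := by linarith
      have p : ‖z‖ ^ 3 ≤ ‖z‖ ^ (m + 3) := pow_le_pow_right₀ z1 (by omega)
      have p1 : 9 * s ^ 2 ≤ ‖z‖ ^ 2 := by nlinarith
      have p2 : 9 * ‖z‖ ≤ ‖z‖ ^ 3 := by nlinarith
      have q : ‖a‖ / ‖z‖ ^ (m + 3) ≤ 1 := (div_le_one (by positivity)).2 (by nlinarith)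
      linarith [(rl (m + 3) a z).1]
    · have := norm_sub_norm_le (4 * a ^ (1 / 2 : ℂ)) (c (m + 3) a)
      rw [norm_sub_rev, norm_mul, Complex.norm_ofNat] at this
      exact le_trans (by linarith) this
  have s1 : s ≤ 1 := by nlinarith
  have c1 : ‖c (m + 3) a‖ ≤ 1 := by
    by_contra H
    linarith [one_lt_pow₀ (not_le.1 H) (by omega : m + 3 ≠ 0)]
  have E : ∀ z, 1 + δ ≤ ‖z‖ → 2 * ‖z‖ ≤ ‖r (m + 3) a z‖ := fun z hz => by
    have z1 : 1 ≤ ‖z‖ := by linarith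
    have p : (1 + δ) ^ (m + 2) ≤ ‖z‖ ^ (m + 2) := pow_le_pow_left₀ (by linarith) hz _
    have q : ‖a‖ / ‖z‖ ^ (m + 3) ≤ 1 := (div_le_one (by positivity)).2 (a1.trans (one_le_pow₀ z1))
    have p2 : 6 ≤ (1 + δ) ^ (m + 2) := by
      rw [pow_succ] at n1
      nlinarith [pow_pos (by linarith : 0 < 1 + δ) (m + 2)]
    have := (rl (m + 3) a z).1
    rw [pow_succ ‖z‖ (m + 2)] at this q
    nlinarith
  refine ⟨a1, abs_le.2 ⟨?_, ?_⟩⟩
  · by_contra H
    have z0 := norm_pos_iff.2 (hv 0)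
    rw [Function.iterate_zero_apply] at z0
    have p : ‖v (m + 3) a‖ ^ (m + 3) ≤ (1 - δ) ^ (m + 3) := pow_le_pow_left₀ z0.le (by linarith) _
    have q : 6 ≤ ‖a‖ / ‖v (m + 3) a‖ ^ (m + 3) := (le_div_iff₀ (by positivity)).2 (by linarith)
    have p1 : (1 - δ) ^ (m + 3) ≤ 1 := pow_le_one₀ (by linarith) (by linarith)
    exact esc (by linarith) E (z := r (m + 3) a (v (m + 3) a))
      (by linarith [(rl (m + 3) a (v (m + 3) a)).2]) fun k => hR (k + 1)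
  · by_contra H
    exact esc (by linarith) E (by linarith) hR

theorem inf {ε : ℝ} (h : 0 < ε) : ∀ᶠ n : ℕ in atTop, ∀ a ∈ M n, ∃ p ∈ Sinf, dist a p < ε := by
  have d0 : 0 < min ε (1 / 2) := by positivity
  have d1 := min_le_left ε (1 / 2)
  have d2 := min_le_right ε (1 / 2)
  filter_upwards [ann h d0 (by linarith), close h d0] with n h1 h2 a ha
  rcases lt_or_ge ‖a‖ ε with H | H
  · exact ⟨0, ⟨Real.pi, ⟨Real.pi_pos.le, by linarith [Real.pi_pos]⟩, by simp⟩, by simpa using H⟩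
  obtain ⟨a1, a2⟩ := h1 a ha H
  have a3 := h2 a H a1
  have v0 : 0 < ‖v n a‖ := by linarith [(abs_le.1 a2).1]
  have nu : ‖-v n a / (‖v n a‖ : ℂ)‖ = 1 := by simp [v0.ne']
  obtain ⟨θ, t1, t2⟩ := unit nu
  refine ⟨_, ⟨θ, t1, rfl⟩, ?_⟩
  rw [t2]
  set u := -v n a / (‖v n a‖ : ℂ)
  have e1 : ‖v n a + u‖ ≤ min ε (1 / 2) := by
    have : v n a + u = (1 - ‖v n a‖ : ℝ) * u := by
      have : (‖v n a‖ : ℂ) ≠ 0 := by exact_mod_cast v0.ne'
      simp only [u]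
      push_cast
      field_simp
      ring
    rw [this, norm_mul, nu, mul_one, norm_real, Real.norm_eq_abs, abs_sub_comm]
    exact a2
  have e2 : a - (1 + u) ^ 2 / 16 = ((c n a - 1) - (v n a + u)) *
      (((c n a - 1) - (v n a + u)) + 2 * (1 + u)) / 16 := by
    conv_lhs => rw [← sq a]
    rw [v]
    ring
  have e3 := norm_sub_le (c n a - 1) (v n a + u)
  have e4 := norm_add_le ((c n a - 1) - (v n a + u)) (2 * (1 + u))
  have e5 := norm_add_le 1 u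
  rw [norm_mul, Complex.norm_two] at e4
  rw [nu, norm_one] at e5
  rw [dist_eq_norm, e2, norm_div, norm_mul, Complex.norm_ofNat, div_lt_iff₀ (by norm_num)]
  nlinarith [norm_nonneg ((c n a - 1) - (v n a + u)),
    norm_nonneg (((c n a - 1) - (v n a + u)) + 2 * (1 + u))]

theorem memS {n : ℕ} {s : ℂ} (h : ‖4 * s - c n (s ^ 2)‖ = 1) : s ^ 2 ∈ S n := by
  obtain ⟨θ, t1, t2⟩ := unit h
  exact ⟨θ, t1, by rw [t2]; ring⟩

theorem spn {η : ℝ} (h : 0 < η) (h1 : η ≤ 1 / 2) :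
    ∀ᶠ n : ℕ in atTop, ∀ p ∈ Sinf, ∃ q ∈ S n, dist p q ≤ η := by
  filter_upwards [close (e := (η / 4) ^ 2) (by positivity) h, eventually_gt_atTop 0]
    with n hn n0 p ⟨θ, _, hp⟩
  have nu := norm_exp_ofReal_mul_I θ
  set u := exp (θ * I)
  rcases le_or_gt (-1 + 2 * η) u.re with H | H
  · have re : ∀ τ ∈ Icc (1 - η) (1 + η), η / 4 ≤ ((1 + τ * u) / 4).re := fun τ hτ => by
      simp only [div_ofNat_re, add_re, one_re, re_ofReal_mul]
      nlinarith [hτ.1, hτ.2]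
    have cl : ∀ τ ∈ Icc (1 - η) (1 + η), ‖c n (((1 + τ * u) / 4) ^ 2) - 1‖ ≤ η := fun τ hτ => by
      refine hn _ ?_ ?_ <;> rw [norm_pow]
      · exact pow_le_pow_left₀ (by positivity) ((re τ hτ).trans (re_le_norm _)) 2
      · refine pow_le_one₀ (norm_nonneg _) ?_
        have := norm_add_le 1 (τ * u)
        rw [norm_mul, nu, norm_real, norm_one, Real.norm_of_nonneg (by linarith [hτ.1])] at this
        rw [norm_div, Complex.norm_ofNat]
        linarith [hτ.2]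
    have ct : ContinuousOn (fun τ : ℝ => ‖4 * ((1 + τ * u) / 4) - c n (((1 + τ * u) / 4) ^ 2)‖)
        (Icc (1 - η) (1 + η)) := by
      have p : ∀ τ ∈ Icc (1 - η) (1 + η), 0 < ((1 + τ * u) / 4).re := fun τ hτ =>
        lt_of_lt_of_le (by positivity) (re τ hτ)
      have sl : ∀ τ ∈ Icc (1 - η) (1 + η), ((1 + τ * u) / 4) ^ 2 ∈ slitPlane := fun τ hτ => by
        by_cases h0 : ((1 + τ * u) / 4).im = 0
        · left
          rw [pow_two, mul_re, h0]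
          nlinarith [p τ hτ]
        · right
          rw [pow_two, mul_im, mul_comm, ← two_mul]
          exact mul_ne_zero two_ne_zero (mul_ne_zero h0 (p τ hτ).ne')
      refine (ContinuousOn.sub (by fun_prop) (ContinuousOn.congr
        (ContinuousOn.cexp ((ContinuousOn.clog (by fun_prop) sl).div_const (2 * n)))
        fun τ hτ => c_eq n (slitPlane_ne_zero (sl τ hτ)))).norm
    have g : ∀ τ ∈ Icc (1 - η) (1 + η),
        |‖4 * ((1 + τ * u) / 4) - c n (((1 + τ * u) / 4) ^ 2)‖ - τ| ≤ η := fun τ hτ => by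
      have := abs_norm_sub_norm_le (4 * ((1 + τ * u) / 4) - c n (((1 + τ * u) / 4) ^ 2)) (τ * u)
      rw [norm_mul, nu, norm_real, mul_one, Real.norm_of_nonneg (by linarith [hτ.1])] at this
      refine this.trans (le_of_eq_of_le ?_ (cl τ hτ))
      rw [← norm_neg]
      congr 1
      ring
    obtain ⟨τ, hτ, e⟩ := intermediate_value_Icc (by linarith) ct (show (1 : ℝ) ∈ Icc _ _ from
      ⟨by linarith [(abs_le.1 (g _ (left_mem_Icc.2 (by linarith)))).2],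
        by linarith [(abs_le.1 (g _ (right_mem_Icc.2 (by linarith)))).1]⟩)
    refine ⟨_, memS e, ?_⟩
    have e2 : p - ((1 + τ * u) / 4) ^ 2 = ((1 - τ : ℝ) * u) * (2 + (1 + τ : ℝ) * u) / 16 := by
      rw [hp]; push_cast; ring
    have e3 := norm_add_le 2 ((1 + τ : ℝ) * u)
    rw [norm_mul, nu, norm_real, Complex.norm_two, Real.norm_of_nonneg (by linarith [hτ.1])] at e3
    rw [dist_eq_norm, e2, norm_div, norm_mul, norm_mul, nu, norm_real, Complex.norm_ofNat,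
      div_le_iff₀ (by norm_num), Real.norm_eq_abs]
    have e4 : |1 - τ| ≤ η := abs_le.2 ⟨by linarith [hτ.2], by linarith [hτ.1]⟩
    nlinarith [norm_nonneg (2 + (1 + τ : ℝ) * u), hτ.2, abs_nonneg (1 - τ)]
  · have cr : ∀ t : ℝ, c n ((-t : ℂ) ^ 2) = ((t ^ 2) ^ (1 / (2 * n) : ℝ) : ℝ) := fun t => by
      rw [neg_sq, ← ofReal_pow, c, arg_ofReal_of_nonneg (sq_nonneg t), norm_real,
        Real.norm_of_nonneg (sq_nonneg t)]
      simp
    have ct : Continuous fun t : ℝ => ‖4 * (-t : ℂ) - c n ((-t : ℂ) ^ 2)‖ := by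
      simp only [cr]
      exact (Continuous.sub (by fun_prop) (continuous_ofReal.comp
        ((continuous_pow 2).rpow_const fun _ => .inr (by positivity)))).norm
    obtain ⟨t, ht, e⟩ := intermediate_value_Icc (by positivity : (0 : ℝ) ≤ η / 4) ct.continuousOn
      (show (1 : ℝ) ∈ Icc _ _ from ⟨by simp [c, n0.ne'], by
        have a1 := hn ((-(η / 4 : ℝ) : ℂ) ^ 2) (by simp [abs_of_pos h]) (by
          rw [norm_pow, norm_neg, norm_real, Real.norm_of_nonneg (by positivity)]; nlinarith)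
        have a2 := (abs_re_le_norm _).trans a1
        refine le_trans ?_ (abs_re_le_norm _)
        refine le_trans ?_ (neg_le_abs _)
        simp only [sub_re, one_re, mul_re, re_ofNat, neg_re, ofReal_re, im_ofNat] at a2 ⊢
        linarith [(abs_le.1 a2).1]⟩)
    refine ⟨_, memS e, (dist_le_norm_add_norm _ _).trans ?_⟩
    have e1 : ‖1 + u‖ ^ 2 = 2 + 2 * u.re := by
      have := Complex.sq_norm u
      rw [nu, normSq_apply] at this
      rw [Complex.sq_norm, normSq_apply]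
      simp only [add_re, one_re, add_im, one_im]
      linarith
    rw [hp, norm_div, norm_pow, norm_pow, e1, Complex.norm_ofNat, norm_neg, norm_real,
      Real.norm_of_nonneg ht.1]
    nlinarith [ht.1, ht.2]

theorem result (ε : ℝ) (h : 0 < ε) : ∃ N ≥ 3, ∀ n ≥ N,
    M n ⊆ Metric.thickening ε (S n) ∧ M n ⊆ Metric.thickening ε Sinf := by
  have d0 : 0 < min (ε / 2) (1 / 2) := by positivity
  obtain ⟨N, hN⟩ := eventually_atTop.1 ((inf (half_pos h)).and (spn d0 (min_le_right _ _)))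
  refine ⟨max N 3, le_max_right _ _, fun n hn => ⟨fun a ha => ?_, fun a ha => ?_⟩⟩
  all_goals
    obtain ⟨h1, h2⟩ := hN n (le_of_max_le_left hn)
    obtain ⟨p, p1, p2⟩ := h1 a ha
  · obtain ⟨q, q1, q2⟩ := h2 p p1
    exact Metric.mem_thickening_iff.2 ⟨q, q1, by
      linarith [dist_triangle a p q, min_le_left (ε / 2) (1 / 2)]⟩
  · exact Metric.mem_thickening_iff.2 ⟨p, p1, by linarith⟩

end Pool.Agent.Results.MP_9ed304_an.Both
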